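import Pool.Agent.Helper5.V2.Rep

/-! CU5: the valuation in the chart and the derivation `VF`. -/

namespace Pool.Agent.V2

open MvPolynomial

namespace CU5

set_option linter.unusedSectionVars false

variable {k : Type*} [Field k] [CharZero k]

section val

variable {f : MvPolynomial (Fin 3) k} {w : MvPolynomial (Fin 3) k → ℝ}

lemma not_dvd_C (hf : Irreducible f) {c : k} (hc : c ≠ 0) : ¬ f ∣ C c := by
  intro h
  exact hf.not_isUnit (isUnit_of_dvd_unit h ((isUnit_iff_ne_zero.mpr hc).map C))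

lemma not_dvd_mul (hf : Irreducible f) {s t : MvPolynomial (Fin 3) k} (hs : ¬ f ∣ s)
    (ht : ¬ f ∣ t) : ¬ f ∣ s * t := fun h => (hf.prime.dvd_or_dvd h).elim hs ht

lemma not_dvd_pow (hf : Irreducible f) {s : MvPolynomial (Fin 3) k} (hs : ¬ f ∣ s) (n : ℕ) :
    ¬ f ∣ s ^ n := fun h => hs (hf.prime.dvd_of_dvd_pow h)

lemma val_pow (hf : Irreducible f) (hw : GV (fun s => f ∣ s) w) {s : MvPolynomial (Fin 3) k}
    {N : ℕ} (hN : s.IsHomogeneous N) (hs : ¬ f ∣ s) (n : ℕ) : w (s ^ n) = n * w s := by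
  induction n with
  | zero =>
    have := hw.const 1 one_ne_zero
    rw [C_1] at this
    simp [this]
  | succ n ih =>
    rw [pow_succ, hw.mul _ _ _ _ (hN.pow n) hN (not_dvd_pow hf hs n) hs, ih]
    push_cast
    ring

lemma add_le (hw : GV (fun s => f ∣ s) w) {s t : MvPolynomial (Fin 3) k} {N : ℕ}
    (hs : s.IsHomogeneous N) (ht : t.IsHomogeneous N) {a : ℝ} (h1 : f ∣ s ∨ a ≤ w s)
    (h2 : f ∣ t ∨ a ≤ w t) : f ∣ s + t ∨ a ≤ w (s + t) := by
  by_cases hst : f ∣ s + t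
  · exact Or.inl hst
  right
  by_cases h3 : f ∣ s
  · by_cases h4 : f ∣ t
    · exact absurd (dvd_add h3 h4) hst
    · rw [add_comm, hw.congr t s N ht hs h4 h3]
      exact h2.resolve_left h4
  · by_cases h4 : f ∣ t
    · rw [hw.congr s t N hs ht h3 h4]
      exact h1.resolve_left h3
    · exact le_trans (le_min (h1.resolve_left h3) (h2.resolve_left h4))
        (hw.add s t N hs ht h3 h4 hst)

/-- the value of two representatives -/
lemma rep_eq (hf : Irreducible f) (hw : GV (fun s => f ∣ s) w) (hf2 : ¬ f ∣ X 2)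
    (hw2 : w (X 2) = 0) {s : MvPolynomial (Fin 2) k} {S T : MvPolynomial (Fin 3) k} {M N : ℕ}
    (hS : Rep s S M) (hT : Rep s T N) : (f ∣ S ↔ f ∣ T) ∧ (¬ f ∣ S → w S = w T) := by
  have h := (hS.up N).uniq (T := T * X 2 ^ M) (by have := hT.up M; rwa [add_comm N M] at this)
  have h1 : f ∣ S ↔ f ∣ T := by
    constructor
    · intro h3
      have h4 : f ∣ T * X 2 ^ M := by rw [← h]; exact dvd_mul_of_dvd_left h3 _
      exact (hf.prime.dvd_or_dvd h4).resolve_right (not_dvd_pow hf hf2 M)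
    · intro h3
      have h4 : f ∣ S * X 2 ^ N := by rw [h]; exact dvd_mul_of_dvd_left h3 _
      exact (hf.prime.dvd_or_dvd h4).resolve_right (not_dvd_pow hf hf2 N)
  refine ⟨h1, fun h3 => ?_⟩
  have h4 : ¬ f ∣ T := fun h5 => h3 (h1.mpr h5)
  have e1 := hw.mul S (X 2 ^ N) _ _ hS.1 ((isHomogeneous_X k (2 : Fin 3)).pow N) h3
    (not_dvd_pow hf hf2 N)
  have e2 := hw.mul T (X 2 ^ M) _ _ hT.1 ((isHomogeneous_X k (2 : Fin 3)).pow M) h4
    (not_dvd_pow hf hf2 M)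
  rw [val_pow hf hw (isHomogeneous_X k (2 : Fin 3)) hf2, hw2, mul_zero, add_zero] at e1 e2
  rw [← e1, ← e2, h]

end val

/-- the kernel in the chart -/
def Zn (f : MvPolynomial (Fin 3) k) (s : MvPolynomial (Fin 2) k) : Prop :=
  f ∣ (Rep.exists s).choose

/-- the valuation in the chart -/
noncomputable def nu (w : MvPolynomial (Fin 3) k → ℝ) (s : MvPolynomial (Fin 2) k) : ℝ :=
  w (Rep.exists s).choose

lemma choose_spec (s : MvPolynomial (Fin 2) k) : ∃ N, Rep s (Rep.exists s).choose N :=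
  (Rep.exists s).choose_spec

section chart

variable {f : MvPolynomial (Fin 3) k} {w : MvPolynomial (Fin 3) k → ℝ} (hf : Irreducible f)
  (hw : GV (fun s => f ∣ s) w) (hf2 : ¬ f ∣ X 2) (hw2 : w (X 2) = 0)
include hf hw hf2 hw2

lemma Zn_iff {s : MvPolynomial (Fin 2) k} {S : MvPolynomial (Fin 3) k} {N : ℕ}
    (hS : Rep s S N) : Zn f s ↔ f ∣ S := by
  obtain ⟨M, hM⟩ := choose_spec s
  exact (rep_eq hf hw hf2 hw2 hM hS).1

lemma nu_eq {s : MvPolynomial (Fin 2) k} {S : MvPolynomial (Fin 3) k} {N : ℕ}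
    (hS : Rep s S N) (h : ¬ f ∣ S) : nu w s = w S := by
  obtain ⟨M, hM⟩ := choose_spec s
  exact ((rep_eq hf hw hf2 hw2 hS hM).2 h).symm

lemma P_iff {s : MvPolynomial (Fin 2) k} {S : MvPolynomial (Fin 3) k} {N : ℕ}
    (hS : Rep s S N) (a : ℝ) : (Zn f s ∨ a ≤ nu w s) ↔ (f ∣ S ∨ a ≤ w S) := by
  rw [Zn_iff hf hw hf2 hw2 hS]
  by_cases h : f ∣ S
  · simp [h]
  · rw [nu_eq hf hw hf2 hw2 hS h]

lemma Zn_zero : Zn f 0 := by
  have : Rep (0 : MvPolynomial (Fin 2) k) 0 0 := ⟨isHomogeneous_zero _ _ _, by simp⟩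
  rw [Zn_iff hf hw hf2 hw2 this]
  exact dvd_zero _

lemma Zn_mul (s t : MvPolynomial (Fin 2) k) (h : Zn f s) : Zn f (s * t) := by
  obtain ⟨M, hM⟩ := choose_spec s
  obtain ⟨N, hN⟩ := choose_spec t
  rw [Zn_iff hf hw hf2 hw2 (hM.mul hN)]
  exact dvd_mul_of_dvd_left h _

lemma exists_common (s t : MvPolynomial (Fin 2) k) : ∃ S T N, Rep s S N ∧ Rep t T N := by
  obtain ⟨S, M, hM⟩ := Rep.exists s
  obtain ⟨T, N, hN⟩ := Rep.exists t
  refine ⟨_, T * X 2 ^ M, M + N, hM.up N, ?_⟩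
  have := hN.up M
  rwa [add_comm N M] at this

lemma Zn_add (s t : MvPolynomial (Fin 2) k) (h1 : Zn f s) (h2 : Zn f t) : Zn f (s + t) := by
  obtain ⟨S, T, N, hS, hT⟩ := exists_common hf hw hf2 hw2 s t
  rw [Zn_iff hf hw hf2 hw2 hS] at h1
  rw [Zn_iff hf hw hf2 hw2 hT] at h2
  rw [Zn_iff hf hw hf2 hw2 (hS.add hT)]
  exact dvd_add h1 h2

lemma P_add (s t : MvPolynomial (Fin 2) k) (a : ℝ) (h1 : Zn f s ∨ a ≤ nu w s)
    (h2 : Zn f t ∨ a ≤ nu w t) : Zn f (s + t) ∨ a ≤ nu w (s + t) := by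
  obtain ⟨S, T, N, hS, hT⟩ := exists_common hf hw hf2 hw2 s t
  rw [P_iff hf hw hf2 hw2 hS] at h1
  rw [P_iff hf hw hf2 hw2 hT] at h2
  rw [P_iff hf hw hf2 hw2 (hS.add hT)]
  exact add_le hw hS.1 hT.1 h1 h2

lemma P_mul (s t : MvPolynomial (Fin 2) k) (a : ℝ) (h1 : Zn f s ∨ a ≤ nu w s) :
    Zn f (t * s) ∨ a ≤ nu w (t * s) := by
  obtain ⟨S, M, hS⟩ := Rep.exists s
  obtain ⟨T, N, hT⟩ := Rep.exists t
  rw [P_iff hf hw hf2 hw2 hS] at h1
  rw [P_iff hf hw hf2 hw2 (hT.mul hS)]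
  by_cases h3 : f ∣ S
  · exact Or.inl (dvd_mul_of_dvd_right h3 _)
  by_cases h4 : f ∣ T
  · exact Or.inl (dvd_mul_of_dvd_left h4 _)
  right
  rw [hw.mul _ _ _ _ hT.1 hS.1 h4 h3]
  have := hw.nonneg T _ hT.1 h4
  have := h1.resolve_left h3
  linarith

lemma P_sum {ι : Type*} (A : Finset ι) (g : ι → MvPolynomial (Fin 2) k) (a : ℝ)
    (h : ∀ i ∈ A, Zn f (g i) ∨ a ≤ nu w (g i)) :
    Zn f (∑ i ∈ A, g i) ∨ a ≤ nu w (∑ i ∈ A, g i) := by
  classical
  induction A using Finset.induction_on with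
  | empty => exact Or.inl (by simpa using Zn_zero hf hw hf2 hw2)
  | insert i A hi ih =>
    rw [Finset.sum_insert hi]
    exact P_add hf hw hf2 hw2 _ _ _ (h i (Finset.mem_insert_self _ _))
      (ih fun j hj => h j (Finset.mem_insert_of_mem hj))

lemma mono (hf1 : ¬ f ∣ X 1) (hfD : ¬ f ∣ Dis) (i j : ℕ) (c : k) (hc : c ≠ 0) :
    ¬ Zn f (C c * X 0 ^ i * X 1 ^ j) ∧
      nu w (C c * X 0 ^ i * X 1 ^ j) = i * w (X 1) + j * w Dis := by
  have h : Rep (C c * X 0 ^ i * X 1 ^ j) (C c * X 1 ^ i * (Dis : MvPolynomial (Fin 3) k) ^ j)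
      (0 + 1 * i + 2 * j) := ((Rep.C c).mul (Rep.X0.pow i)).mul (Rep.X1.pow j)
  have hn1 : ¬ f ∣ C c * X 1 ^ i := not_dvd_mul hf (not_dvd_C hf hc) (not_dvd_pow hf hf1 i)
  have hn : ¬ f ∣ C c * X 1 ^ i * (Dis : MvPolynomial (Fin 3) k) ^ j :=
    not_dvd_mul hf hn1 (not_dvd_pow hf hfD j)
  refine ⟨by rwa [Zn_iff hf hw hf2 hw2 h], ?_⟩
  rw [nu_eq hf hw hf2 hw2 h hn,
    hw.mul _ _ _ _ (((Rep.C c).mul (Rep.X0.pow i)).1) ((Rep.X1.pow j).1) hn1
      (not_dvd_pow hf hfD j),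
    hw.mul _ _ _ _ (Rep.C c).1 ((Rep.X0.pow i).1) (not_dvd_C hf hc) (not_dvd_pow hf hf1 i),
    hw.const c hc, val_pow hf hw (isHomogeneous_X k (1 : Fin 3)) hf1,
    val_pow hf hw isHom_Dis hfD, zero_add]

end chart

/-- chain rule -/
lemma chain (T : MvPolynomial (Fin 3) k) :
    pderiv 0 (ph T) = ph (pderiv 0 T) * (C (1/2) * X 0) + ph (pderiv 1 T) ∧
      pderiv 1 (ph T) = - (C (1/4) * ph (pderiv 0 T)) := by
  induction T using MvPolynomial.induction_on with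
  | C a => simp
  | add p q hp hq =>
    simp only [map_add, hp.1, hp.2, hq.1, hq.2]
    constructor <;> ring
  | mul_X p i hp =>
    have h01 : pderiv (0 : Fin 2) (X 1 : MvPolynomial (Fin 2) k) = 0 :=
      pderiv_X_of_ne (by decide)
    have h10 : pderiv (1 : Fin 2) (X 0 : MvPolynomial (Fin 2) k) = 0 :=
      pderiv_X_of_ne (by decide)
    have hC : (C (1/4) : MvPolynomial (Fin 2) k) * 2 = C (1/2) := by
      have : (2 : MvPolynomial (Fin 2) k) = C 2 := (map_ofNat C 2).symm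
      rw [this, ← C_mul]; congr 1; norm_num
    fin_cases i
    · have e0 : pderiv (0 : Fin 3) (p * X 0) = pderiv 0 p * X 0 + p := by
        rw [pderiv_mul, pderiv_X_self, mul_one]
      have e1 : pderiv (1 : Fin 3) (p * X 0) = pderiv 1 p * X 0 := by
        rw [pderiv_mul, pderiv_X_of_ne (by decide), mul_zero, add_zero]
      simp only [Fin.zero_eta]
      rw [e0, e1]
      simp only [map_mul, map_add, ph_X0]
      simp only [pderiv_mul, map_sub, pderiv_pow, pderiv_X_self, h01, h10, pderiv_C, hp.1, hp.2]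
      constructor
      · simp only [zero_mul, zero_add, sub_zero, mul_one]
        push_cast
        linear_combination (ph p * X 0) * hC
      · simp only [zero_mul, zero_add, mul_zero, zero_sub]
        ring
    · have e0 : pderiv (0 : Fin 3) (p * X 1) = pderiv 0 p * X 1 := by
        rw [pderiv_mul, pderiv_X_of_ne (by decide), mul_zero, add_zero]
      have e1 : pderiv (1 : Fin 3) (p * X 1) = pderiv 1 p * X 1 + p := by
        rw [pderiv_mul, pderiv_X_self, mul_one]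
      simp only [Fin.mk_one]
      rw [e0, e1]
      simp only [map_mul, map_add, ph_X1]
      simp only [pderiv_mul, hp.1, hp.2, pderiv_X_self, h10]
      constructor <;> ring
    · have e0 : pderiv (0 : Fin 3) (p * X 2) = pderiv 0 p * X 2 := by
        rw [pderiv_mul, pderiv_X_of_ne (by decide), mul_zero, add_zero]
      have e1 : pderiv (1 : Fin 3) (p * X 2) = pderiv 1 p * X 2 := by
        rw [pderiv_mul, pderiv_X_of_ne (by decide), mul_zero, add_zero]
      have h2 : (⟨2, by decide⟩ : Fin 3) = 2 := rfl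
      simp only [Fin.reduceFinMk]
      rw [e0, e1]
      simp only [map_mul, ph_X2, mul_one]
      exact hp

/-- Euler's identity in the chart -/
lemma ph_VF {f : MvPolynomial (Fin 3) k} {δ : ℕ} (hδ : f.IsHomogeneous δ) :
    ph (VF f) = (δ : MvPolynomial (Fin 2) k) * X 0 * ph f +
      ((C 2 - C (1/2) * (X 0 ^ 2 + X 1)) * pderiv 0 (ph f) +
      (- (C 2 * X 0)) * (X 1 * pderiv 1 (ph f))) := by
  have hE := congrArg ph hδ.sum_X_mul_pderiv
  rw [Fin.sum_univ_three] at hE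
  simp only [map_add, map_mul, ph_X0, ph_X1, ph_X2, one_mul, nsmul_eq_mul, map_natCast] at hE
  obtain ⟨h0, h1⟩ := chain f
  rw [h0, h1]
  simp only [VF, map_add, map_mul, ph_X0, ph_X1, ph_X2, algHom_C, algebraMap_eq]
  have e4 : (C (1/4) : MvPolynomial (Fin 2) k) * 4 = 1 := by
    have : (4 : MvPolynomial (Fin 2) k) = C 4 := (map_ofNat C 4).symm
    rw [this, ← C_mul]; norm_num
  have e2 : (C (1/2) : MvPolynomial (Fin 2) k) = C (1/4) * 2 := by
    have : (2 : MvPolynomial (Fin 2) k) = C 2 := (map_ofNat C 2).symm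
    rw [this, ← C_mul]; congr 1; norm_num
  have e2' : (C 2 : MvPolynomial (Fin 2) k) = 2 := map_ofNat C 2
  rw [e2, e2']
  generalize (C (1/4) : MvPolynomial (Fin 2) k) = q at *
  generalize ph (pderiv 0 f) = A at *
  generalize ph (pderiv 1 f) = B at *
  generalize ph (pderiv 2 f) = D at *
  generalize ph f = F at *
  linear_combination X 0 * hE + (A * (- X 0 + q * X 0 * (X 0 ^ 2 + X 1)) + B * X 0 ^ 2) * e4

end CU5

end Pool.Agent.V2
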