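import Pool.Agent.Helper21.V2.CU1
import Pool.Agent.Helper21.V2.CU3
import Pool.Agent.Helper5.V2.Chart

/-! V2-CU5: `VF_u`. -/

namespace Pool.Agent.V2

open MvPolynomial

namespace CU5

set_option linter.unusedSectionVars false

variable {k : Type*} [Field k] [CharZero k]

lemma monomial_eq2 (d : Fin 2 →₀ ℕ) (c : k) :
    (monomial d c : MvPolynomial (Fin 2) k) = C c * X 0 ^ d 0 * X 1 ^ d 1 := by
  rw [monomial_eq, Finsupp.prod_fintype _ _ (fun i => pow_zero _), Fin.prod_univ_two, mul_assoc]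

/-- if the monomials of `f` in the chart lie above the line, `VF f` has large value -/
lemma VF_u_of {f : MvPolynomial (Fin 3) k} (hf : Irreducible f) {δ : ℕ}
    (hδ : f.IsHomogeneous δ) (h1 : 1 ≤ δ) {u : MvPolynomial (Fin 3) k → ℝ}
    (hu : GV (fun s => f ∣ s) u) (e I : ℕ)
    (hf1 : ¬ f ∣ X 1) (hf2 : ¬ f ∣ X 2) (hfD : ¬ f ∣ Dis)
    (hu1 : u (X 1) = e) (hu2 : u (X 2) = 0) (huD : u Dis = I) (hV : ¬ f ∣ VF f)
    (hN : ∀ d ∈ (ph f).support, e * I ≤ d 0 * e + d 1 * I) :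
    (e * I - e : ℝ) ≤ u (VF f) := by
  have hmon : ∀ (d : Fin 2 →₀ ℕ) (c : k) (a : ℝ), (c ≠ 0 → a ≤ d 0 * e + d 1 * I) →
      Zn f (monomial d c) ∨ a ≤ nu u (monomial d c) := by
    intro d c a h
    by_cases hc : c = 0
    · rw [hc, monomial_zero]
      exact Or.inl (Zn_zero hf hu hf2 hu2)
    · right
      rw [monomial_eq2, (mono hf hu hf2 hu2 hf1 hfD (d 0) (d 1) c hc).2, hu1, huD]
      exact h hc
  have hN' : ∀ d ∈ (ph f).support, (e * I : ℝ) ≤ d 0 * e + d 1 * I := by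
    intro d hd
    exact_mod_cast hN d hd
  have he0 : (0 : ℝ) ≤ e := Nat.cast_nonneg _
  have hI0 : (0 : ℝ) ≤ I := Nat.cast_nonneg _
  have hRf : Rep (ph f) f δ := ⟨hδ, rfl⟩
  have hp0 : (pderiv 0 f).IsHomogeneous (δ - 1) := hδ.pderiv
  have hp1 : (pderiv 1 f).IsHomogeneous (δ - 1) := hδ.pderiv
  have hp2 : (pderiv 2 f).IsHomogeneous (δ - 1) := hδ.pderiv
  have hVh : (VF f).IsHomogeneous δ := by
    have e1 : 1 + (δ - 1) = δ := by omega
    have a0 := (isHomogeneous_X k (1 : Fin 3)).mul hp0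
    have a1 := ((isHomogeneous_C (Fin 3) (2:k)).mul
      ((isHomogeneous_X k (0 : Fin 3)).add (isHomogeneous_X k (2 : Fin 3)))).mul hp1
    have a2 := (isHomogeneous_X k (1 : Fin 3)).mul hp2
    rw [zero_add, e1] at a1
    rw [e1] at a0 a2
    exact (a0.add a1).add a2
  have hRV : Rep (ph (VF f)) (VF f) δ := ⟨hVh, rfl⟩
  -- derivative in `x`
  have hd0 : Zn f (pderiv 0 (ph f)) ∨ (e * I - e : ℝ) ≤ nu u (pderiv 0 (ph f)) := by
    have h := as_sum (ph f)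
    rw [h, map_sum]
    refine P_sum hf hu hf2 hu2 _ _ _ fun d hd => ?_
    rw [pderiv_monomial]
    refine hmon _ _ _ fun hc => ?_
    have hd0 : d 0 ≠ 0 := by
      intro h0
      apply hc
      rw [h0]; simp
    have h2 := hN' d hd
    have e0 : (d - (Finsupp.single 0 1 : Fin 2 →₀ ℕ)) 0 = d 0 - 1 := by simp
    have e1 : (d - (Finsupp.single 0 1 : Fin 2 →₀ ℕ)) 1 = d 1 := by simp
    rw [e0, e1, Nat.cast_sub (Nat.one_le_iff_ne_zero.mpr hd0)]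
    push_cast
    nlinarith
  have hd1 : Zn f (X 1 * pderiv 1 (ph f)) ∨ (e * I - e : ℝ) ≤ nu u (X 1 * pderiv 1 (ph f)) := by
    have h := as_sum (ph f)
    rw [h, map_sum, Finset.mul_sum]
    refine P_sum hf hu hf2 hu2 _ _ _ fun d hd => ?_
    rw [X_mul_pderiv_monomial]
    rw [nsmul_eq_mul, ← map_natCast (C : k →+* MvPolynomial (Fin 2) k), C_mul_monomial]
    refine hmon _ _ _ fun hc => ?_
    have h2 := hN' d hd
    linarith
  have hall : Zn f (ph (VF f)) ∨ (e * I - e : ℝ) ≤ nu u (ph (VF f)) := by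
    rw [ph_VF hδ]
    refine P_add hf hu hf2 hu2 _ _ _ (Or.inl ?_) (P_add hf hu hf2 hu2 _ _ _ ?_ ?_)
    · rw [mul_comm]
      apply Zn_mul hf hu hf2 hu2
      rw [Zn_iff hf hu hf2 hu2 hRf]
    · exact P_mul hf hu hf2 hu2 _ _ _ hd0
    · exact P_mul hf hu hf2 hu2 _ _ _ hd1
  rw [P_iff hf hu hf2 hu2 hRV] at hall
  exact hall.resolve_left hV

/-- the Newton polygon of the curve at the point -/
lemma newton_u {f : MvPolynomial (Fin 3) k} (hf : Irreducible f) {δ : ℕ}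
    (hδ : f.IsHomogeneous δ) (h1 : 1 ≤ δ) {u : MvPolynomial (Fin 3) k → ℝ}
    (hu : GV (fun s => f ∣ s) u) (nu' : NormC f δ u) (e I : ℕ) (he : 1 ≤ e) (hI : 2 * e < I)
    (hf1 : ¬ f ∣ X 1) (hf2 : ¬ f ∣ X 2) (hfD : ¬ f ∣ Dis)
    (hu1 : u (X 1) = e) (hu2 : u (X 2) = 0) (huD : u Dis = I) :
    ∀ d ∈ (ph f).support, e * I ≤ d 0 * e + d 1 * I := by
  obtain ⟨C0, hC0⟩ := NormC.indep hf hδ h1 hu nu'
  refine newton (nu u) (Zn f) (Zn_zero hf hu hf2 hu2) (Zn_add hf hu hf2 hu2)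
    (Zn_mul hf hu hf2 hu2) e I he (by omega) ?_ ?_ (ph f) ?_ ?_ C0 ?_
  · intro i j c hc
    have h := mono hf hu hf2 hu2 hf1 hfD i j c hc
    rw [hu1, huD] at h
    exact h
  · intro s t a hs ht
    exact P_add hf hu hf2 hu2 s t a hs ht
  · intro h0
    exact hf.ne_zero (ph_inj hδ h0)
  · have hRf : Rep (ph f) f δ := ⟨hδ, rfl⟩
    rw [Zn_iff hf hu hf2 hu2 hRf]
  · intro n
    obtain ⟨m, s, hm, hs, ha⟩ := hC0 n n (Nat.le_mul_of_pos_left n h1)
    refine ⟨m, fun i => ph (s i), hm, fun a ha0 => ?_⟩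
    obtain ⟨h3, h4⟩ := ha a ha0
    have hR : Rep (∑ i, C (a i) * ph (s i)) (∑ i, C (a i) * s i) n := by
      refine ⟨?_, ?_⟩
      · apply IsHomogeneous.sum
        intro i _
        simpa using (isHomogeneous_C (Fin 3) (a i)).mul (hs i)
      · rw [map_sum]
        refine Finset.sum_congr rfl fun i _ => ?_
        rw [map_mul, algHom_C, algebraMap_eq]
    rw [P_iff hf hu hf2 hu2 hR]
    rintro (h5 | h5)
    · exact h3 h5
    · exact absurd h4 (not_lt.mpr h5)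

end CU5

variable {k : Type*} [Field k] [CharZero k]

/-- CU5. `u`-side: tangency point, `u a = 2e`, `u b = e`, `u c = 0`, `u Dis = I > 2e`. -/
theorem VF_u {f : MvPolynomial (Fin 3) k} (hf : Irreducible f) {δ : ℕ}
    (hδ : f.IsHomogeneous δ) (h1 : 1 ≤ δ) {u : MvPolynomial (Fin 3) k → ℝ}
    (hu : GV (fun s => f ∣ s) u) (nu : NormC f δ u) (e I : ℕ) (he : 1 ≤ e) (hI : 2 * e < I)
    (hf1 : ¬ f ∣ X 1) (hf2 : ¬ f ∣ X 2) (hfD : ¬ f ∣ Dis)
    (hu1 : u (X 1) = e) (hu2 : u (X 2) = 0) (huD : u Dis = I) (hV : ¬ f ∣ VF f) :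
    (e * I - e : ℝ) ≤ u (VF f) :=
  CU5.VF_u_of hf hδ h1 hu e I hf1 hf2 hfD hu1 hu2 huD hV
    (CU5.newton_u hf hδ h1 hu nu e I he hI hf1 hf2 hfD hu1 hu2 huD)

end Pool.Agent.V2
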