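import Pool.Agent.Helper21.V2.Defs2

/-! CU5, preparation: the chart `X 2 = 1`, coordinates `x = b`, `y = b² - 4a`. -/

namespace Pool.Agent.V2

open MvPolynomial

namespace CU5

set_option linter.unusedSectionVars false

variable {k : Type*} [Field k] [CharZero k]

noncomputable def ph : MvPolynomial (Fin 3) k →ₐ[k] MvPolynomial (Fin 2) k :=
  aeval ![C (1/4) * (X 0 ^ 2 - X 1), X 0, 1]

@[simp] lemma ph_X0 : ph (X 0 : MvPolynomial (Fin 3) k) = C (1/4) * (X 0 ^ 2 - X 1) := by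
  simp [ph]
@[simp] lemma ph_X1 : ph (X 1 : MvPolynomial (Fin 3) k) = X 0 := by
  simp [ph]
@[simp] lemma ph_X2 : ph (X 2 : MvPolynomial (Fin 3) k) = 1 := by
  simp [ph]

lemma four_mul : (C 4 : MvPolynomial (Fin 2) k) * C (1/4) = 1 := by
  rw [← C_mul]; norm_num

@[simp] lemma ph_Dis : ph (Dis : MvPolynomial (Fin 3) k) = X 1 := by
  have h := four_mul (k := k)
  simp only [Dis, map_sub, map_pow, map_mul, ph_X0, ph_X1, ph_X2, algHom_C]
  simp only [algebraMap_eq]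
  linear_combination (-(X 0 ^ 2 - X 1)) * h

lemma isHom_Dis : (Dis : MvPolynomial (Fin 3) k).IsHomogeneous 2 := by
  unfold Dis
  refine IsHomogeneous.sub ((isHomogeneous_X k 1).pow 2) ?_
  have h := ((isHomogeneous_C (Fin 3) (4:k)).mul (isHomogeneous_X k 0)).mul (isHomogeneous_X k 2)
  simpa using h

/-- scaling of a homogeneous polynomial -/
lemma hom_scale {K : Type*} [Field K] [Algebra k K] {S : MvPolynomial (Fin 3) k} {N : ℕ}
    (hS : S.IsHomogeneous N) (a : Fin 3 → K) (z : K) (hz : z ≠ 0) :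
    aeval (fun i => a i / z) S * z ^ N = aeval a S := by
  rw [aeval_def, aeval_def, eval₂_eq', eval₂_eq', Finset.sum_mul]
  refine Finset.sum_congr rfl fun d hd => ?_
  have hN : ∑ i, d i = N := by
    have := hS (mem_support_iff.mp hd)
    rw [← this, Finsupp.weight_apply, Finsupp.sum_fintype]
    · simp
    · simp
  rw [mul_assoc]
  congr 1
  rw [← hN, ← Finset.prod_pow_eq_pow_sum, ← Finset.prod_mul_distrib]
  refine Finset.prod_congr rfl fun i _ => ?_
  rw [div_pow, div_mul_cancel₀]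
  exact pow_ne_zero _ hz

lemma ph_comp {K : Type*} [Field K] [Algebra k K] (x y : K) (T : MvPolynomial (Fin 3) k) :
    aeval ![x, y] (ph T) = aeval ![(x ^ 2 - y) / 4, x, 1] T := by
  have h4 : (algebraMap k K) 4 = 4 := map_ofNat _ 4
  have : ((aeval ![x, y] : MvPolynomial (Fin 2) k →ₐ[k] K).comp ph) =
      (aeval ![(x ^ 2 - y) / 4, x, 1] : MvPolynomial (Fin 3) k →ₐ[k] K) := by
    apply MvPolynomial.algHom_ext
    intro i
    fin_cases i
    · simp only [Fin.zero_eta, AlgHom.comp_apply, ph_X0, map_mul, map_sub, map_pow,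
          aeval_X, aeval_C]
      simp only [map_div₀, map_one, h4, Matrix.cons_val_zero, Matrix.cons_val_one]
      ring
    · simp
    · simp
  rw [← this]; rfl

lemma alg_aux {K : Type*} [Field K] (x0 x1 x2 : K) (h2 : x2 ≠ 0) (h4 : (4 : K) ≠ 0) :
    ((x1 / x2) ^ 2 - (x1 ^ 2 - 4 * x0 * x2) / x2 ^ 2) / 4 = x0 / x2 := by
  field_simp
  ring

/-- uniqueness -/
lemma ph_inj {S : MvPolynomial (Fin 3) k} {N : ℕ} (hS : S.IsHomogeneous N) (h : ph S = 0) :
    S = 0 := by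
  let K := FractionRing (MvPolynomial (Fin 3) k)
  obtain ⟨ι, hι, h2, hC⟩ : ∃ ι : MvPolynomial (Fin 3) k →+* K, Function.Injective ι ∧
      (∀ T : MvPolynomial (Fin 3) k, aeval (fun i => ι (X i)) T = ι T) ∧
      ∀ c : k, ι (C c) = algebraMap k K c := by
    refine ⟨algebraMap (MvPolynomial (Fin 3) k) K, IsFractionRing.injective _ _, fun T => ?_,
      fun c => ?_⟩
    · have : (aeval (fun i => algebraMap (MvPolynomial (Fin 3) k) K (X i)) :
          MvPolynomial (Fin 3) k →ₐ[k] K) =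
          IsScalarTower.toAlgHom k (MvPolynomial (Fin 3) k) K := by
        apply MvPolynomial.algHom_ext
        intro i
        simp
      rw [this]; rfl
    · rw [IsScalarTower.algebraMap_apply k (MvPolynomial (Fin 3) k) K]; rfl
  have hz : ι (X 2) ≠ 0 := by
    rw [Ne, map_eq_zero_iff _ hι]; exact X_ne_zero 2
  have h4 : (4 : K) ≠ 0 := by
    have : (algebraMap k K) 4 ≠ 0 := by
      rw [Ne, map_eq_zero]; norm_num
    rwa [map_ofNat] at this
  have hcomp := ph_comp (k := k) (K := K) (ι (X 1) / ι (X 2)) (ι Dis / ι (X 2) ^ 2) S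
  have hD : ι Dis = ι (X 1) ^ 2 - 4 * ι (X 0) * ι (X 2) := by
    simp only [Dis, map_sub, map_pow, map_mul, hC]
    rw [map_ofNat]
  have hfun : ![((ι (X 1) / ι (X 2)) ^ 2 - ι Dis / ι (X 2) ^ 2) / 4, ι (X 1) / ι (X 2), 1] =
      fun i : Fin 3 => ι (X i) / ι (X 2) := by
    funext i
    fin_cases i
    · simp only [Fin.zero_eta, Matrix.cons_val_zero]
      rw [hD]
      exact alg_aux _ _ _ hz h4
    · simp
    · simp [div_self hz]
  rw [hfun, h, map_zero] at hcomp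
  have h1 := hom_scale hS (fun i => ι (X i)) (ι (X 2)) hz
  rw [← hcomp, zero_mul, h2] at h1
  exact hι (by rw [← h1, map_zero])

/-- `S` is a homogeneous representative of degree `N` of `s` -/
def Rep (s : MvPolynomial (Fin 2) k) (S : MvPolynomial (Fin 3) k) (N : ℕ) : Prop :=
  S.IsHomogeneous N ∧ ph S = s

lemma Rep.uniq {s : MvPolynomial (Fin 2) k} {S T : MvPolynomial (Fin 3) k} {N : ℕ}
    (h1 : Rep s S N) (h2 : Rep s T N) : S = T := by
  have h : S - T = 0 := ph_inj (h1.1.sub h2.1) (by rw [map_sub, h1.2, h2.2, sub_self])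
  exact sub_eq_zero.mp h

lemma Rep.add {s t : MvPolynomial (Fin 2) k} {S T : MvPolynomial (Fin 3) k} {N : ℕ}
    (h1 : Rep s S N) (h2 : Rep t T N) : Rep (s + t) (S + T) N :=
  ⟨h1.1.add h2.1, by rw [map_add, h1.2, h2.2]⟩

lemma Rep.mul {s t : MvPolynomial (Fin 2) k} {S T : MvPolynomial (Fin 3) k} {M N : ℕ}
    (h1 : Rep s S M) (h2 : Rep t T N) : Rep (s * t) (S * T) (M + N) :=
  ⟨h1.1.mul h2.1, by rw [map_mul, h1.2, h2.2]⟩

lemma Rep.X2 (M : ℕ) : Rep (1 : MvPolynomial (Fin 2) k) (X 2 ^ M) M :=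
  ⟨by simpa using (isHomogeneous_X k (2 : Fin 3)).pow M, by simp⟩

lemma Rep.pow {s : MvPolynomial (Fin 2) k} {S : MvPolynomial (Fin 3) k} {N : ℕ}
    (h1 : Rep s S N) (j : ℕ) : Rep (s ^ j) (S ^ j) (N * j) :=
  ⟨h1.1.pow j, by rw [map_pow, h1.2]⟩

lemma Rep.C (c : k) : Rep (C c : MvPolynomial (Fin 2) k) (MvPolynomial.C c) 0 :=
  ⟨isHomogeneous_C _ _, by simp⟩

lemma Rep.X0 : Rep (X 0 : MvPolynomial (Fin 2) k) (X 1) 1 :=
  ⟨isHomogeneous_X _ _, by simp⟩

lemma Rep.X1 : Rep (X 1 : MvPolynomial (Fin 2) k) Dis 2 :=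
  ⟨isHom_Dis, by simp⟩

lemma Rep.up {s : MvPolynomial (Fin 2) k} {S : MvPolynomial (Fin 3) k} {N : ℕ}
    (h1 : Rep s S N) (M : ℕ) : Rep s (S * X 2 ^ M) (N + M) := by
  simpa using h1.mul (Rep.X2 M)

lemma Rep.exists (s : MvPolynomial (Fin 2) k) : ∃ S N, Rep s S N := by
  induction s using MvPolynomial.induction_on with
  | C a => exact ⟨_, _, Rep.C a⟩
  | add p q hp hq =>
    obtain ⟨S, M, hS⟩ := hp
    obtain ⟨T, N, hT⟩ := hq
    refine ⟨_, M + N, (hS.up N).add (T := T * X 2 ^ M) ?_⟩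
    have := hT.up M
    rwa [add_comm N M] at this
  | mul_X p i hp =>
    obtain ⟨S, M, hS⟩ := hp
    fin_cases i
    · exact ⟨_, _, hS.mul Rep.X0⟩
    · exact ⟨_, _, hS.mul Rep.X1⟩

end CU5

end Pool.Agent.V2
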